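import Pool.Agent.H.MP_095aaa_co.B

set_option autoImplicit false

namespace Pool.Agent.H.MP_87e2cd_co
open Pool.Agent.H.MP_933a78_co Pool.Agent.H.MP_095aaa_co

def okE (c : Cert2) : Bool :=
  c.2.1.ok && c.2.2.ok &&
    chain ((c.2.1.vt ++ c.2.2.vt) ++ (c.2.1.et c.1 ++ c.2.2.et c.1))
      (ad (ad (ad c.2.1.len c.2.2.len) (ad c.2.1.len c.2.2.len)) (ct 1)) 50 (ct 1)

def E2 (m n : ℕ) : Prop :=
  ∃ (f g : Fin m ⊕ Fin n → ℕ) (k : ℕ), Function.Injective (Sum.elim f g) ∧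
    (∀ x, 1 ≤ Sum.elim f g x ∧ Sum.elim f g x ≤ 2 * (m + n)) ∧
    (∀ i j : Fin m, j.val = (i.val + 1) % m →
      f (Sum.inl i) + g (Sum.inl i) + f (Sum.inl j) = k) ∧
    (∀ i j : Fin n, j.val = (i.val + 1) % n →
      f (Sum.inr i) + g (Sum.inr i) + f (Sum.inr j) = k)

theorem E2.symm {m n : ℕ} (h : E2 m n) : E2 n m := by
  obtain ⟨f, g, k, h1, h2, h5, h6⟩ := h
  have e : Sum.elim (f ∘ Sum.swap) (g ∘ Sum.swap) = Sum.elim f g ∘ Sum.map Sum.swap Sum.swap := by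
    funext x; cases x <;> rfl
  refine ⟨f ∘ Sum.swap, g ∘ Sum.swap, k, ?_, fun v => ?_, h6, h5⟩
  · rw [e]
    exact h1.comp (Sum.swap_leftInverse.injective.sumMap Sum.swap_leftInverse.injective)
  · rw [e]
    have := h2 (Sum.map Sum.swap Sum.swap v)
    simp only [Function.comp]; omega

theorem of_good {m n : ℕ} (h : Good2 m n) : E2 m n := by
  obtain ⟨f, g, k, h1, h2, h3, h4, h5, h6⟩ := h
  refine ⟨f, g, k, h1.sumElim h2 (fun a b => ?_), fun v => ?_, fun i j hj => ?_, fun i j hj => ?_⟩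
  · have := h3 a; have := h4 b; omega
  · rcases v with v | v
    · have := h3 v; simp only [Sum.elim_inl]; omega
    · have := h4 v; simp only [Sum.elim_inr]; omega
  · have := h5 i j hj; omega
  · have := h6 i j hj; omega

theorem cert_e2 (c : Cert2) (h : okE c = true) (X Y m n : ℕ) (hm : ev X Y c.2.1.len = m)
    (hn : ev X Y c.2.2.len = n) : E2 m n := by
  obtain ⟨k, c, d⟩ := c
  simp only [okE, Bool.and_eq_true] at h
  obtain ⟨⟨h1, h2⟩, h3⟩ := h
  have a := cy_cyc X Y k c h1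
  have b := cy_cyc X Y k d h2
  dsimp only at hm hn
  rw [hm] at a; rw [hn] at b
  obtain ⟨f, g, f1, f2, f3⟩ := a.fin
  obtain ⟨f', g', g1, g2, g3⟩ := b.fin
  obtain ⟨i1, r1⟩ := surj_inj (Sum.elim (Sum.elim f f') (Sum.elim g g')) 1 (2 * (m + n))
    (by simp; ring) (fun z z1 z2 => by
    rcases Cov.app (chain_cov X Y _ _ _ _ h3 z (by simpa using z1)
      (by simp only [ev_ad, ev_ct, hm, hn]; omega)) with hz | hz <;>
    rcases Cov.app hz with hz | hz
    · obtain ⟨i, e⟩ := f1 z hz; exact ⟨Sum.inl (Sum.inl i), e⟩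
    · obtain ⟨i, e⟩ := g1 z hz; exact ⟨Sum.inl (Sum.inr i), e⟩
    · obtain ⟨i, e⟩ := f2 z hz; exact ⟨Sum.inr (Sum.inl i), e⟩
    · obtain ⟨i, e⟩ := g2 z hz; exact ⟨Sum.inr (Sum.inr i), e⟩)
  have ee : ∀ x, Sum.elim (fun v => (Sum.elim f f' v).toNat) (fun v => (Sum.elim g g' v).toNat) x
      = (Sum.elim (Sum.elim f f') (Sum.elim g g') x).toNat := by
    intro x; cases x <;> rfl
  refine ⟨fun v => (Sum.elim f f' v).toNat, fun v => (Sum.elim g g' v).toNat, (ev X Y k).toNat,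
    fun u v huv => i1 ?_, fun v => ?_, fun i j hj => ?_, fun i j hj => ?_⟩
  · have := r1 u; have := r1 v; rw [ee, ee] at huv; omega
  · have := r1 v; rw [ee]; omega
  · have := r1 (Sum.inl (Sum.inl i)); have := r1 (Sum.inl (Sum.inl j))
    have := r1 (Sum.inr (Sum.inl i)); have := f3 i j hj
    simp only [Sum.elim_inl, Sum.elim_inr] at *; omega
  · have := r1 (Sum.inl (Sum.inr i)); have := r1 (Sum.inl (Sum.inr j))
    have := r1 (Sum.inr (Sum.inr i)); have := g3 i j hj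
    simp only [Sum.elim_inl, Sum.elim_inr] at *; omega

def d0 : Cert2 := ((36,0,105),
  ((true,true,(0,0,3),(12,0,39),(1,0,0)),
   [(true,false,(2,0,0),(21,0,60),(2,0,3)),
    (false,true,(1,0,9),(11,0,30),(7,0,15))]),
  ((true,true,(0,0,6),(8,0,24),(25,0,66)),
   [(true,false,(1,0,0),(5,0,15),(22,0,60))]))
def d1 : Cert2 := ((38,10,104),
  ((true,true,(0,0,4),(17,4,40),(20,6,54)),
   [(false,false,(1,1,5),(7,2,22),(13,4,38)),
    (true,false,(3,1,3),(5,1,13),(10,3,25))]),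
  ((false,true,(1,0,2),(15,4,38),(1,0,0)),
   [(true,false,(0,0,4),(21,6,62),(6,1,17)),
    (true,true,(0,0,0),(11,3,33),(0,0,0))]))
def d2 : Cert2 := ((44,10,90),
  ((true,true,(2,0,6),(1,0,0),(16,4,30)),
   [(true,true,(0,1,0),(12,2,24),(4,0,6)),
    (false,true,(3,1,6),(9,1,18),(13,3,24))]),
  ((true,true,(0,0,2),(8,1,16),(5,1,6)),
   [(true,false,(0,0,2),(6,1,12),(5,1,10)),
    (true,false,(0,0,2),(7,1,16),(6,1,14)),
    (true,true,(0,0,0),(32,8,68),(0,0,0))]))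
def d3 : Cert2 := ((54,0,105),
  ((false,true,(1,0,3),(1,0,0),(20,0,39)),
   [(false,false,(2,0,0),(3,0,3),(30,0,60)),
    (false,true,(3,0,9),(9,0,15),(17,0,30))]),
  ((false,true,(2,0,6),(35,0,66),(13,0,24)),
   [(false,false,(1,0,0),(32,0,60),(7,0,15))]))
def d4 : Cert2 := ((58,10,108),
  ((true,true,(0,0,6),(1,0,0),(32,6,54)),
   [(true,true,(1,1,0),(17,2,30),(2,0,6)),
    (true,true,(2,0,6),(3,1,6),(33,6,60)),
    (false,true,(2,1,0),(23,3,42),(6,1,12)),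
    (true,true,(0,0,0),(26,4,54),(0,0,0))]),
  ((false,true,(2,0,6),(35,6,66),(9,2,12)),
   [(true,true,(0,0,0),(32,6,60),(0,0,0)),
    (true,true,(0,0,0),(15,2,30),(0,0,0))]))
def d5 : Cert2 := ((59,10,90),
  ((true,true,(3,0,6),(1,0,0),(21,4,30)),
   [(true,true,(0,1,0),(16,2,24),(5,0,6)),
    (false,true,(4,1,6),(12,1,18),(17,3,24))]),
  ((true,true,(0,0,2),(11,1,16),(6,1,6)),
   [(false,true,(1,0,2),(7,1,8),(8,1,10)),
    (false,false,(1,0,2),(9,1,14),(10,1,16)),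
    (true,true,(0,0,0),(43,8,68),(0,0,0))]))
def d6 : Cert2 := ((71,0,105),
  ((false,true,(1,0,3),(1,0,0),(26,0,39)),
   [(true,false,(2,0,0),(41,0,60),(3,0,3)),
    (true,true,(4,0,9),(21,0,30),(12,0,15))]),
  ((true,true,(2,0,6),(16,0,24),(47,0,66)),
   [(true,false,(1,0,0),(10,0,15),(42,0,60))]))
def d7 : Cert2 := ((72,10,96),
  ((false,true,(2,0,4),(37,6,50),(4,0,2)),
   [(false,true,(4,1,5),(15,2,18),(6,0,6)),
    (true,true,(2,1,3),(24,3,31),(12,1,15)),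
    (true,true,(0,0,0),(32,4,44),(0,0,0))]),
  ((true,true,(1,0,2),(27,4,34),(1,0,0)),
   [(false,false,(2,0,4),(42,6,58),(11,1,15)),
    (true,true,(0,0,0),(22,3,31),(0,0,0))]))
def d8 : Cert2 := ((79,10,104),
  ((false,true,(2,0,4),(41,6,54),(33,4,40)),
   [(true,false,(3,1,5),(29,4,38),(15,2,22)),
    (true,false,(4,1,3),(10,1,13),(20,3,25))]),
  ((true,true,(1,0,2),(30,4,38),(1,0,0)),
   [(false,false,(2,0,4),(46,6,62),(12,1,17)),
    (true,true,(0,0,0),(24,3,33),(0,0,0))]))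
def d9 : Cert2 := ((89,0,105),
  ((false,true,(2,0,3),(1,0,0),(33,0,39)),
   [(false,false,(2,0,0),(4,0,3),(50,0,60)),
    (false,true,(6,0,9),(14,0,15),(27,0,30))]),
  ((false,true,(4,0,6),(57,0,66),(21,0,24)),
   [(false,false,(1,0,0),(52,0,60),(12,0,15))]))
def d10 : Cert2 := ((94,10,108),
  ((true,true,(2,0,6),(1,0,0),(50,6,54)),
   [(true,true,(1,1,0),(27,2,30),(4,0,6)),
    (true,true,(4,0,6),(5,1,6),(53,6,60)),
    (false,true,(2,1,0),(37,3,42),(10,1,12)),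
    (true,true,(0,0,0),(44,4,54),(0,0,0))]),
  ((false,true,(4,0,6),(57,6,66),(13,2,12)),
   [(true,true,(0,0,0),(52,6,60),(0,0,0)),
    (true,true,(0,0,0),(25,2,30),(0,0,0))]))
def d11 : Cert2 := ((95,10,104),
  ((true,true,(2,0,4),(39,4,40),(50,6,54)),
   [(false,false,(4,1,5),(19,2,22),(34,4,38)),
    (true,false,(5,1,3),(12,1,13),(24,3,25))]),
  ((false,true,(2,0,2),(36,4,38),(1,0,0)),
   [(true,false,(2,0,4),(55,6,62),(15,1,17)),
    (true,true,(0,0,0),(29,3,33),(0,0,0))]))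
def d12 : Cert2 := ((106,0,105),
  ((false,true,(2,0,3),(1,0,0),(39,0,39)),
   [(true,false,(2,0,0),(61,0,60),(4,0,3)),
    (true,true,(7,0,9),(31,0,30),(17,0,15))]),
  ((true,true,(4,0,6),(24,0,24),(69,0,66)),
   [(true,false,(1,0,0),(15,0,15),(62,0,60))]))
def d13 : Cert2 := ((112,10,108),
  ((true,true,(3,0,6),(1,0,0),(59,6,54)),
   [(true,true,(1,1,0),(32,2,30),(5,0,6)),
    (true,true,(5,0,6),(6,1,6),(63,6,60)),
    (false,true,(2,1,0),(44,3,42),(12,1,12)),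
    (true,true,(0,0,0),(53,4,54),(0,0,0))]),
  ((false,true,(5,0,6),(68,6,66),(15,2,12)),
   [(true,true,(0,0,0),(62,6,60),(0,0,0)),
    (true,true,(0,0,0),(30,2,30),(0,0,0))]))
def d14 : Cert2 := ((104,10,90),
  ((true,true,(6,0,6),(1,0,0),(36,4,30)),
   [(true,true,(0,1,0),(28,2,24),(8,0,6)),
    (false,true,(7,1,6),(21,1,18),(29,3,24))]),
  ((true,true,(1,0,2),(19,1,16),(9,1,6)),
   [(false,true,(2,0,2),(11,1,8),(13,1,10)),
    (false,false,(2,0,2),(16,1,14),(18,1,16)),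
    (true,true,(0,0,0),(77,8,68),(0,0,0))]))
def d15 : Cert2 := ((124,0,105),
  ((false,true,(3,0,3),(1,0,0),(46,0,39)),
   [(false,false,(2,0,0),(5,0,3),(70,0,60)),
    (false,true,(9,0,9),(19,0,15),(37,0,30))]),
  ((false,true,(6,0,6),(79,0,66),(29,0,24)),
   [(false,false,(1,0,0),(72,0,60),(17,0,15))]))
def d16 : Cert2 := ((126,10,104),
  ((false,true,(4,0,4),(65,6,54),(51,4,40)),
   [(true,false,(5,1,5),(46,4,38),(25,2,22)),
    (true,false,(5,1,3),(16,1,13),(31,3,25))]),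
  ((true,true,(2,0,2),(47,4,38),(1,0,0)),
   [(false,false,(4,0,4),(74,6,62),(20,1,17)),
    (true,true,(0,0,0),(39,3,33),(0,0,0))]))
def d17 : Cert2 := ((125,10,96),
  ((false,true,(4,0,4),(65,6,50),(5,0,2)),
   [(false,true,(7,1,5),(25,2,18),(9,0,6)),
    (true,true,(4,1,3),(41,3,31),(20,1,15)),
    (true,true,(0,0,0),(56,4,44),(0,0,0))]),
  ((true,true,(2,0,2),(46,4,34),(1,0,0)),
   [(false,false,(4,0,4),(74,6,58),(19,1,15)),
    (true,true,(0,0,0),(39,3,31),(0,0,0))]))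
def d18 : Cert2 := ((31,0,19),
  ((false,true,(1,0,1),(19,0,11),(11,0,6)),
   [(false,false,(2,0,1),(13,0,8),(4,0,3)),
    (true,true,(0,0,0),(10,0,6),(19,0,11))]),
  ((true,true,(1,0,1),(5,0,3),(17,0,10)),
   []))
def d19 : Cert2 := ((39,0,18),
  ((true,true,(1,0,1),(14,0,6),(1,0,0)),
   [(true,false,(0,0,0),(8,0,4),(22,0,10)),
    (true,false,(2,0,1),(22,0,10),(7,0,4))]),
  ((true,true,(1,0,1),(17,0,7),(19,0,8)),
   []))
def d20 : Cert2 := ((48,14,21),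
  ((true,true,(0,1,0),(19,5,8),(26,7,11)),
   [(true,true,(1,1,1),(17,4,7),(20,6,8)),
    (true,true,(0,0,0),(9,2,4),(0,0,0)),
    (true,true,(2,0,1),(26,8,11),(14,4,6)),
    (true,true,(0,0,0),(4,2,2),(0,0,0))]),
  ((true,true,(1,0,1),(22,7,9),(24,7,10)),
   []))
def d21 : Cert2 := ((54,14,21),
  ((false,true,(1,1,0),(28,7,11),(22,5,8)),
   [(false,true,(2,1,1),(18,4,7),(23,6,8)),
    (true,true,(0,0,0),(10,2,4),(0,0,0)),
    (true,true,(2,0,1),(15,4,6),(30,8,11)),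
    (true,true,(0,0,0),(5,2,2),(0,0,0))]),
  ((true,true,(1,0,1),(25,7,9),(27,7,10)),
   []))
def d22 : Cert2 := ((26,0,0),
  ((true,true,(0,0,0),(13,0,0),(1,0,0)),
   [(true,true,(0,0,0),(1,0,0),(14,0,0)),
    (true,false,(0,0,0),(15,0,0),(9,0,0)),
    (true,true,(0,0,0),(2,0,0),(13,0,0))]),
  ((false,true,(1,0,0),(4,0,0),(14,0,0)),
   [(true,true,(0,0,0),(7,0,0),(0,0,0)),
    (true,true,(0,0,0),(16,0,0),(0,0,0))]))
def d23 : Cert2 := ((29,0,0),
  ((true,true,(0,0,0),(15,0,0),(12,0,0)),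
   [(true,true,(0,0,0),(13,0,0),(11,0,0)),
    (true,true,(0,0,0),(11,0,0),(14,0,0)),
    (true,false,(0,0,0),(16,0,0),(3,0,0)),
    (true,true,(0,0,0),(10,0,0),(0,0,0))]),
  ((true,true,(1,0,0),(8,0,0),(14,0,0)),
   []))
def d24 : Cert2 := ((35,0,0),
  ((false,true,(2,0,0),(14,0,0),(18,0,0)),
   [(true,true,(0,0,0),(9,0,0),(20,0,0))]),
  ((false,true,(1,0,0),(20,0,0),(5,0,0)),
   [(true,true,(0,0,0),(13,0,0),(6,0,0)),
    (false,false,(1,0,0),(16,0,0),(11,0,0))]))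
def d25 : Cert2 := ((33,0,0),
  ((false,true,(2,0,0),(18,0,0),(3,0,0)),
   [(true,false,(0,0,0),(9,0,0),(16,0,0)),
    (true,true,(0,0,0),(8,0,0),(0,0,0))]),
  ((false,true,(1,0,0),(17,0,0),(15,0,0)),
   [(true,true,(0,0,0),(13,0,0),(16,0,0)),
    (true,true,(0,0,0),(14,0,0),(17,0,0))]))
def d26 : Cert2 := ((42,12,0),
  ((false,true,(2,0,0),(23,8,0),(16,4,0)),
   [(false,false,(1,1,0),(20,7,0),(4,1,0))]),
  ((true,true,(1,0,0),(13,4,0),(21,7,0)),
   [(true,true,(0,1,0),(22,7,0),(9,1,0)),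
    (true,true,(0,0,0),(11,2,0),(0,0,0)),
    (true,true,(0,0,0),(19,6,0),(13,4,0))]))
def d27 : Cert2 := ((40,0,0),
  ((true,true,(0,0,0),(22,0,0),(2,0,0)),
   [(true,true,(1,0,0),(14,0,0),(23,0,0)),
    (true,true,(0,0,0),(19,0,0),(16,0,0)),
    (false,false,(1,0,0),(5,0,0),(17,0,0))]),
  ((true,true,(2,0,0),(7,0,0),(20,0,0)),
   []))
def d28 : Cert2 := ((49,14,0),
  ((false,true,(3,1,0),(19,5,0),(25,7,0)),
   [(true,true,(0,0,0),(13,4,0),(28,8,0))]),
  ((false,true,(1,0,0),(28,8,0),(7,2,0)),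
   [(true,true,(0,0,0),(18,5,0),(8,2,0)),
    (false,false,(2,1,0),(23,7,0),(16,5,0))]))
def d29 : Cert2 := ((48,0,0),
  ((false,true,(1,0,0),(27,0,0),(20,0,0)),
   [(true,true,(0,0,0),(21,0,0),(0,0,0)),
    (true,false,(1,0,0),(5,0,0),(28,0,0)),
    (false,true,(1,0,0),(26,0,0),(19,0,0))]),
  ((false,true,(1,0,0),(17,0,0),(23,0,0)),
   [(false,true,(2,0,0),(13,0,0),(24,0,0))]))
def d30 : Cert2 := ((39,0,15),
  ((false,true,(3,0,1),(14,0,5),(1,0,0)),
   [(true,true,(0,0,0),(19,0,8),(0,0,0)),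
    (true,true,(0,0,1),(9,0,3),(12,0,4)),
    (true,true,(0,0,0),(12,0,5),(10,0,4))]),
  ((false,true,(2,0,1),(4,0,1),(7,0,2)),
   [(true,true,(0,0,0),(25,0,10),(0,0,0))]))
def d31 : Cert2 := ((51,0,0),
  ((true,true,(1,0,0),(17,0,0),(32,0,0)),
   [(false,false,(3,0,0),(27,0,0),(5,0,0))]),
  ((true,true,(0,0,0),(28,0,0),(17,0,0)),
   [(false,true,(2,0,0),(8,0,0),(29,0,0)),
    (true,true,(0,0,0),(11,0,0),(0,0,0)),
    (true,true,(0,0,0),(16,0,0),(25,0,0))]))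
def d32 : Cert2 := ((48,0,18),
  ((true,true,(1,0,1),(25,0,9),(21,0,7)),
   [(false,false,(3,0,1),(14,0,5),(6,0,3)),
    (true,true,(0,0,0),(20,0,7),(25,0,9))]),
  ((false,true,(2,0,1),(22,0,8),(9,0,3)),
   [(true,true,(0,0,0),(11,0,4),(0,0,0)),
    (true,true,(0,0,0),(19,0,7),(0,0,0))]))
def d33 : Cert2 := ((63,12,0),
  ((true,true,(2,0,0),(20,4,0),(31,7,0)),
   [(true,true,(0,1,0),(33,7,0),(13,1,0)),
    (true,true,(0,0,0),(17,2,0),(0,0,0)),
    (true,true,(1,0,0),(28,6,0),(19,4,0))]),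
  ((false,true,(3,0,0),(34,8,0),(24,4,0)),
   [(false,false,(1,1,0),(30,7,0),(6,1,0))]))
def d34 : Cert2 := ((55,0,18),
  ((true,true,(3,0,1),(5,0,1),(34,0,11)),
   [(true,false,(1,0,1),(21,0,7),(25,0,9)),
    (true,true,(0,0,0),(17,0,6),(0,0,0))]),
  ((true,true,(2,0,1),(22,0,7),(2,0,0)),
   [(true,true,(0,0,0),(4,0,1),(25,0,8)),
    (true,true,(0,0,0),(32,0,11),(0,0,0))]))
def d35 : Cert2 := ((63,12,0),
  ((true,true,(1,0,0),(21,4,0),(40,8,0)),
   [(false,false,(4,1,0),(34,7,0),(6,1,0))]),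
  ((true,true,(0,0,0),(35,7,0),(21,4,0)),
   [(false,true,(3,1,0),(9,1,0),(36,7,0)),
    (true,true,(0,0,0),(13,2,0),(0,0,0)),
    (true,true,(0,0,0),(20,4,0),(31,6,0))]))
def d36 : Cert2 := ((61,0,18),
  ((false,true,(4,0,1),(37,0,11),(6,0,1)),
   [(true,false,(1,0,1),(23,0,7),(28,0,9)),
    (true,true,(0,0,0),(19,0,6),(0,0,0))]),
  ((false,true,(3,0,1),(1,0,0),(25,0,7)),
   [(true,true,(0,0,0),(4,0,1),(28,0,8)),
    (true,true,(0,0,0),(36,0,11),(0,0,0))]))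
def d37 : Cert2 := ((65,0,18),
  ((true,true,(2,0,1),(18,0,5),(43,0,11)),
   [(true,true,(0,0,0),(23,0,6),(0,0,0)),
    (true,false,(3,0,1),(8,0,3),(33,0,9))]),
  ((true,true,(3,0,1),(14,0,4),(10,0,3)),
   [(true,true,(0,0,0),(35,0,9),(0,0,0)),
    (true,false,(0,0,0),(21,0,6),(30,0,8))]))
def d38 : Cert2 := ((84,12,21),
  ((true,true,(3,0,1),(27,4,7),(41,7,10)),
   [(true,true,(0,1,0),(44,7,11),(17,1,4)),
    (true,true,(0,0,0),(23,2,6),(0,0,0)),
    (true,true,(2,0,1),(37,6,9),(25,4,6))]),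
  ((false,true,(4,0,1),(45,8,11),(32,4,8)),
   [(false,false,(1,1,0),(40,7,10),(8,1,2))]))
def d39 : Cert2 := ((90,12,21),
  ((true,true,(3,0,1),(29,4,7),(44,7,10)),
   [(true,true,(0,1,0),(47,7,11),(18,1,4)),
    (true,true,(0,0,0),(25,2,6),(0,0,0)),
    (false,true,(3,0,1),(26,4,6),(40,6,9))]),
  ((true,true,(4,0,1),(33,4,8),(49,8,11)),
   [(false,false,(1,1,0),(43,7,10),(9,1,2))]))
def d40 : Cert2 := ((21,0,0),
  ((true,true,(0,0,0),(3,0,0),(0,0,0)),
   [(true,true,(0,0,0),(4,0,0),(0,0,0)),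
    (true,true,(0,0,0),(10,0,0),(0,0,0)),
    (true,true,(0,0,0),(5,0,0),(0,0,0))]),
  ((true,true,(0,0,0),(1,0,0),(0,0,0)),
   [(true,true,(0,0,0),(8,0,0),(0,0,0)),
    (true,true,(0,0,0),(11,0,0),(0,0,0))]))
def ecerts : List Cert2 := [d0, d1, d2, d3, d4, d5, d6, d7, d8, d9, d10, d11, d12, d13, d14, d15, d16, d17, d18, d19, d20, d21, d22, d23, d24, d25, d26, d27, d28, d29, d30, d31, d32, d33, d34, d35, d36, d37, d38, d39, d40]

theorem ecerts_ok : ecerts.all okE = true := by decide +kernel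

def hitE (fx fy : Bool) (a b c d m n : ℕ) : Bool := ecerts.any fun t =>
  decide (t.2.1.len = ((m : ℤ), if fx then (a : ℤ) else 0, if fy then (c : ℤ) else 0)) &&
  decide (t.2.2.len = ((n : ℤ), if fx then (b : ℤ) else 0, if fy then (d : ℤ) else 0))

theorem hit_e2 {fx fy : Bool} {a b c d m n : ℕ} (h : hitE fx fy a b c d m n = true) (U V : ℕ)
    (hU : fx = false → U = 0) (hV : fy = false → V = 0) (M N : ℕ) (hM : M = m + a * U + c * V)
    (hN : N = n + b * U + d * V) : E2 M N := by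
  simp only [hitE, List.any_eq_true, Bool.and_eq_true, decide_eq_true_eq] at h
  obtain ⟨t, ht, e1, e2⟩ := h
  refine cert_e2 t (List.all_eq_true.1 ecerts_ok t ht) U V _ _ ?_ ?_
  · rw [e1, hM]; cases fx <;> cases fy <;> simp_all [ev]
  · rw [e2, hN]; cases fx <;> cases fy <;> simp_all [ev]

set_option synthInstance.maxSize 2000 in
theorem boxA : ∀ m < 33, ∀ n < 15, (m % 2 = 0 ∧ n % 2 = 0 ∧ 3 ≤ n ∧ 2 * n ≤ m ∧ m < 2 * n + 5) →
    hitE (decide (2 * n + 1 ≤ m)) true 4 0 24 12 m n = true := by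
  decide +kernel

theorem boxO : ∀ m < 14, (m % 2 = 1 ∧ 6 ≤ m) →
    hitE (decide (10 ≤ m)) true 4 0 4 2 m 3 = true := by
  decide +kernel

set_option synthInstance.maxSize 2000 in
theorem boxB : ∀ m < 16, ∀ n < 12, ((m + n) % 2 = 0 ∧ 3 ≤ n ∧ 4 ≤ m ∧ n ≤ m ∧ m < 2 * n ∧
    2 * n < m + 8 ∧ m < n + 5) →
    hitE (decide (m + 6 ≤ 2 * n)) (decide (n + 3 ≤ m)) 2 2 4 2 m n = true := by
  decide +kernel

theorem even_sum (m n : ℕ) (h : (m + n) % 2 = 0) (h3 : 3 ≤ n) (h4 : 4 ≤ m) (hmn : n ≤ m) :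
    E2 m n := by
  by_cases hA : 2 * n ≤ m
  · by_cases hp : m % 2 = 0
    · obtain ⟨U, hU⟩ : ∃ U, U = (m - 2 * n - 1) / 4 := ⟨_, rfl⟩
      obtain ⟨V, hV⟩ : ∃ V, V = (n - 3) / 12 := ⟨_, rfl⟩
      exact hit_e2 (boxA (m - 4 * U - 24 * V) (by omega) (n - 12 * V) (by omega)
        ⟨by omega, by omega, by omega, by omega, by omega⟩) U V
        (by simp only [decide_eq_false_iff_not]; omega) (by simp) _ _ (by omega) (by omega)
    · obtain ⟨U, hU⟩ : ∃ U, U = (m - 2 * n - 4) / 4 := ⟨_, rfl⟩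
      obtain ⟨V, hV⟩ : ∃ V, V = (n - 3) / 2 := ⟨_, rfl⟩
      exact hit_e2 (boxO (m - 4 * U - 4 * V) (by omega) ⟨by omega, by omega⟩) U V
        (by simp only [decide_eq_false_iff_not]; omega) (by simp) _ _ (by omega) (by omega)
  · obtain ⟨U, hU⟩ : ∃ U, U = (2 * n - m - 6) / 2 := ⟨_, rfl⟩
    obtain ⟨V, hV⟩ : ∃ V, V = (m - n - 3) / 2 := ⟨_, rfl⟩
    obtain ⟨m', hm'⟩ : ∃ m', m = m' + 2 * U + 4 * V := ⟨m - 2 * U - 4 * V, by omega⟩
    obtain ⟨n', hn'⟩ : ∃ n', n = n' + 2 * U + 2 * V := ⟨n - 2 * U - 2 * V, by omega⟩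
    exact hit_e2 (boxB m' (by omega) n' (by omega) ⟨by omega,
      by omega, by omega, by omega, by omega, by omega, by omega⟩) U V
      (by simp only [decide_eq_false_iff_not]; omega)
      (by simp only [decide_eq_false_iff_not]; omega) _ _ (by omega) (by omega)

theorem e43 : E2 4 3 :=
  hit_e2 (fx := false) (fy := false) (a := 0) (b := 0) (c := 0) (d := 0) (m := 4) (n := 3)
    (by decide +kernel) 0 0 (fun _ => rfl) (fun _ => rfl) _ _ rfl rfl

theorem all_e2 (m n : ℕ) (hm : 3 ≤ m) (hn : 3 ≤ n) (h : ¬ (m = 3 ∧ n = 3)) : E2 m n := by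
  by_cases hp : (m + n) % 2 = 0
  · by_cases hmn : n ≤ m
    · exact even_sum m n hp hn (by omega) hmn
    · exact (even_sum n m (by omega) hm (by omega) (by omega)).symm
  · by_cases h8 : 8 ≤ m + n
    · exact of_good (good_of_odd m n hm hn h8 (by omega))
    · obtain ⟨rfl, rfl⟩ | ⟨rfl, rfl⟩ : (m = 4 ∧ n = 3) ∨ (m = 3 ∧ n = 4) := by omega
      · exact e43
      · exact e43.symm

def tri (k a b c : ℕ) : List ℕ := [c, k - b - c, k - c - a, b, k - a - b, a]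
def me (x : ℕ) : List ℕ → Bool
  | [] => false
  | y :: r => Nat.beq x y || me x r
def nw (x : ℕ) (l : List ℕ) : Bool := Nat.ble 1 x && Nat.ble x 12 && !me x l
def okL : List ℕ → Bool
  | [] => true
  | x :: r => nw x r && okL r

theorem me_false (x : ℕ) (l : List ℕ) (h : x ∉ l) : me x l = false := by
  induction l with
  | nil => rfl
  | cons y r ih =>
    simp only [List.mem_cons, not_or] at h
    simp only [me, ih h.2, Bool.or_false]
    cases hb : Nat.beq x y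
    · rfl
    · exact absurd (Nat.eq_of_beq_eq_true hb) h.1

theorem okL_of (l : List ℕ) (h : l.Nodup) (h2 : ∀ x ∈ l, 1 ≤ x ∧ x ≤ 12) : okL l = true := by
  induction l with
  | nil => rfl
  | cons y r ih =>
    rw [List.nodup_cons] at h
    have := h2 y List.mem_cons_self
    simp only [okL, nw, me_false y r h.1, ih h.2 (fun x hx => h2 x (List.mem_cons_of_mem _ hx)),
      Nat.ble_eq_true_of_le this.1, Nat.ble_eq_true_of_le this.2]
    rfl

def R13 : List ℕ := [0, 1, 2, 3, 4, 5, 6, 7, 8, 9, 10, 11, 12]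

def chk (k : ℕ) : Bool := R13.all fun a => R13.all fun b => !(Nat.ble a b && okL [b, k - a - b, a]) ||
  R13.all fun c => !(Nat.ble a c && okL (tri k a b c)) || R13.all fun d => !nw d (tri k a b c) || R13.all fun e =>
    !(nw e ((k - d - e) :: d :: tri k a b c) && nw (k - d - e) (d :: tri k a b c)) ||
      (fun h => !okL (h :: (k - e - h) :: (k - h - d) :: e :: (k - d - e) :: d :: tri k a b c))
        (6 * k - 78 - a - b - c - d - e)

theorem ck14 : chk 14 = true := by decide +kernel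
theorem ck15 : chk 15 = true := by decide +kernel
theorem ck16 : chk 16 = true := by decide +kernel
theorem ck17 : chk 17 = true := by decide +kernel
theorem ck18 : chk 18 = true := by decide +kernel
theorem ck19 : chk 19 = true := by decide +kernel
theorem ck20 : chk 20 = true := by decide +kernel
theorem ck21 : chk 21 = true := by decide +kernel
theorem ck22 : chk 22 = true := by decide +kernel
theorem ck23 : chk 23 = true := by decide +kernel
theorem ck24 : chk 24 = true := by decide +kernel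
theorem ck25 : chk 25 = true := by decide +kernel

theorem no33_aux (k : ℕ) (h1 : 14 ≤ k) (h2 : k ≤ 25) : chk k = true := by
  interval_cases k
  exacts [ck14, ck15, ck16, ck17, ck18, ck19, ck20, ck21, ck22, ck23, ck24, ck25]

theorem core (k a b c d e w : ℕ) (hab : a ≤ b) (hac : a ≤ c)
    (e6 : 6 * k = 78 + a + b + c + d + e + w)
    (key : okL (w :: (k - e - w) :: (k - w - d) :: e :: (k - d - e) :: d :: tri k a b c) = true) :
    False := by
  have sp : ∀ x l, okL (x :: l) = true → nw x l = true ∧ okL l = true := fun x l h => by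
    simpa [okL] using h
  have rr : ∀ x l, nw x l = true → 1 ≤ x ∧ x ≤ 12 := fun x l h => by
    simp only [nw, Bool.and_eq_true, Nat.ble_eq] at h; exact h.1
  have mm : ∀ x, x ≤ 12 → x ∈ R13 := fun x hx => List.mem_range.2 (show x < 13 by omega)
  obtain ⟨p0, k0⟩ := sp _ _ key
  obtain ⟨p1, k1⟩ := sp _ _ (sp _ _ (sp _ _ k0).2).2
  obtain ⟨p2, k2⟩ := sp _ _ k1
  obtain ⟨p3, k3⟩ := sp _ _ k2
  obtain ⟨p4, k4⟩ := sp _ _ k3
  have k5 := (sp _ _ (sp _ _ k4).2).2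
  obtain ⟨p6, k6⟩ := sp _ _ k5
  have p7 := (sp _ _ (sp _ _ k6).2).1
  have := rr _ _ p0; have := rr _ _ p1; have := rr _ _ p3; have := rr _ _ p4; have := rr _ _ p6
  have := rr _ _ p7
  have H := no33_aux k (by omega) (by omega)
  simp only [chk, List.all_eq_true, Bool.or_eq_true, Bool.not_eq_true'] at H
  rcases H a (mm _ (by omega)) b (mm _ (by omega)) with h | h
  · exact absurd (h.symm.trans (Bool.and_eq_true_iff.2 ⟨Nat.ble_eq_true_of_le hab, k5⟩)) (by simp)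
  rcases h c (mm _ (by omega)) with h | h
  · exact absurd (h.symm.trans (Bool.and_eq_true_iff.2 ⟨Nat.ble_eq_true_of_le hac, k3⟩)) (by simp)
  rcases h d (mm _ (by omega)) with h | h
  · exact absurd (h.symm.trans p3) (by simp)
  rcases h e (mm _ (by omega)) with h | h
  · exact absurd (h.symm.trans (Bool.and_eq_true_iff.2 ⟨p1, p2⟩)) (by simp)
  rw [show 6 * k - 78 - a - b - c - d - e = w by omega] at h
  exact absurd (h.symm.trans key) (by simp)

theorem no33 : ¬ E2 3 3 := by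
  rintro ⟨f, g, k, h1, h2, h3, h4⟩
  have b0 := h4 0 1 rfl; have b1 := h4 1 2 rfl; have b2 := h4 2 0 rfl
  have a0 := h3 0 1 rfl; have a1 := h3 1 2 rfl; have a2 := h3 2 0 rfl
  have sm := sum_inj (Sum.elim f g) 1 12 (by simp) h1 (fun x => by have := h2 x; omega)
  simp only [Fintype.sum_sum_type, Fin.sum_univ_three, Sum.elim_inl, Sum.elim_inr] at sm
  have go : ∀ i : Fin 3, f (Sum.inl i) ≤ f (Sum.inl (i + 1)) → f (Sum.inl i) ≤ f (Sum.inl (i + 2)) →
      6 * k = 78 + f (Sum.inl i) + f (Sum.inl (i + 1)) + f (Sum.inl (i + 2)) + f (Sum.inr 0) +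
        f (Sum.inr 1) + f (Sum.inr 2) → False := by
    intro i l1 l2 e6
    have c0 := h3 i (i + 1) (by clear * -; revert i; decide)
    have c1 := h3 (i + 1) (i + 2) (by clear * -; revert i; decide)
    have c2 := h3 (i + 2) i (by clear * -; revert i; decide)
    have key : okL (([Sum.inl (Sum.inr 2), Sum.inr (Sum.inr 1), Sum.inr (Sum.inr 2),
        Sum.inl (Sum.inr 1), Sum.inr (Sum.inr 0), Sum.inl (Sum.inr 0), Sum.inl (Sum.inl (i + 2)),
        Sum.inr (Sum.inl (i + 1)), Sum.inr (Sum.inl (i + 2)), Sum.inl (Sum.inl (i + 1)),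
        Sum.inr (Sum.inl i), Sum.inl (Sum.inl i)] :
        List ((Fin 3 ⊕ Fin 3) ⊕ (Fin 3 ⊕ Fin 3))).map (Sum.elim f g)) = true := by
      refine okL_of _ (List.Nodup.map h1 (by clear * -; revert i; decide)) (fun x hx => ?_)
      obtain ⟨y, -, rfl⟩ := List.mem_map.1 hx
      exact h2 y
    simp only [List.map_cons, List.map_nil, Sum.elim_inl, Sum.elim_inr] at key
    rw [show g (Sum.inr 1) = k - f (Sum.inr 1) - f (Sum.inr 2) by omega,
      show g (Sum.inr 2) = k - f (Sum.inr 2) - f (Sum.inr 0) by omega,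
      show g (Sum.inr 0) = k - f (Sum.inr 0) - f (Sum.inr 1) by omega,
      show g (Sum.inl (i + 1)) = k - f (Sum.inl (i + 1)) - f (Sum.inl (i + 2)) by omega,
      show g (Sum.inl (i + 2)) = k - f (Sum.inl (i + 2)) - f (Sum.inl i) by omega,
      show g (Sum.inl i) = k - f (Sum.inl i) - f (Sum.inl (i + 1)) by omega] at key
    exact core k _ _ _ _ _ _ l1 l2 e6 key
  have g0 := go 0; have g1 := go 1; have g2 := go 2
  simp only [show (0 : Fin 3) + 1 = 1 from rfl, show (0 : Fin 3) + 2 = 2 from rfl,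
    show (1 : Fin 3) + 1 = 2 from rfl, show (1 : Fin 3) + 2 = 0 from rfl,
    show (2 : Fin 3) + 1 = 0 from rfl, show (2 : Fin 3) + 2 = 1 from rfl] at g0 g1 g2
  have e6 : 6 * k = 78 + f (Sum.inl 0) + f (Sum.inl 1) + f (Sum.inl 2) + f (Sum.inr 0) +
      f (Sum.inr 1) + f (Sum.inr 2) := by clear g0 g1 g2; omega
  clear a0 a1 a2 b0 b1 b2 sm
  by_cases q0 : f (Sum.inl 0) ≤ f (Sum.inl 1) ∧ f (Sum.inl 0) ≤ f (Sum.inl 2)
  · exact g0 q0.1 q0.2 e6
  by_cases q1 : f (Sum.inl 1) ≤ f (Sum.inl 2) ∧ f (Sum.inl 1) ≤ f (Sum.inl 0)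
  · exact g1 q1.1 q1.2 (by clear g0 g1 g2; omega)
  exact g2 (by clear g0 g1 g2; omega) (by clear g0 g1 g2; omega) (by clear g0 g1 g2; omega)

end Pool.Agent.H.MP_87e2cd_co
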